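import Pool.Agent.MP_5159fa_co.Mg.Reg

/-!
The conflict graph of a matching in a 3-edge-coloured graph.
-/

set_option autoImplicit false

namespace Pool.Agent.MP_5159fa_co

open Finset Pool.Agent.MP_d802e4_co

lemma girth_of_ac {V : Type} [DecidableEq V] {G : SimpleGraph V} {g : ℕ}
    (h : ∀ S : Finset V, S.card ≤ g → AC G (S : Set V)) : (g : ℕ∞) ≤ G.egirth := by
  rw [SimpleGraph.le_egirth]
  intro q c hc
  by_contra hlt
  have hlt' : c.length < g := by
    by_contra h
    exact hlt (by exact_mod_cast (not_lt.1 h))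
  cases c with
  | nil => exact hc.ne_nil rfl
  | @cons _ w _ ha p =>
    rw [SimpleGraph.Walk.cons_isCycle_iff] at hc
    simp only [SimpleGraph.Walk.length_cons] at hlt'
    have hr : p.reverse.IsPath := hc.1.reverse
    have he : s(q, w) ∉ p.reverse.edges := by
      rw [SimpleGraph.Walk.edges_reverse, List.mem_reverse]; exact hc.2
    have hl : p.reverse.length = p.length := p.length_reverse
    generalize p.reverse = r at hr he hl
    cases r with
    | nil => exact ha.ne rfl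
    | @cons _ w' _ ha' r =>
      rw [SimpleGraph.Walk.cons_isPath_iff] at hr
      simp only [SimpleGraph.Walk.length_cons] at hl
      let S : Finset V := insert q r.support.toFinset
      have hS : S.card ≤ g := by
        refine (card_insert_le _ _).trans ?_
        have := List.toFinset_card_le r.support
        rw [SimpleGraph.Walk.length_support] at this
        omega
      have key : ∀ {a b : V} (t : G.Walk a b), (∀ z ∈ t.support, z ∈ (S : Set V) ∧ z ≠ q) →
          b ∈ Br G (S : Set V) q a := by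
        intro a b t
        induction t with
        | nil => intro _; exact root_mem_Br _ _ _
        | @cons a a' b h t ih =>
          intro hz
          have h1 := hz a' (by simp)
          exact Br_trans (Br_step (root_mem_Br _ _ _) h h1.1 h1.2)
            (ih fun z hz' => hz z (by simp [hz']))
      have hm : ∀ z ∈ r.support, z ∈ (S : Set V) ∧ z ≠ q := fun z hz =>
        ⟨by simp [S, hz], fun hq => hr.2 (hq ▸ hz)⟩
      have := h S hS q (by simp [S]) w' w ha' ha (hm w' r.start_mem_support).1 (key r hm)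
      subst this
      exact he (by simp)

variable {V : Type} [Fintype V] [DecidableEq V]

/-- edges of colour two -/
def E2 (G : SimpleGraph V) (c : Sym2 V → Fin 3) : Type := {e : Sym2 V // e ∈ G.edgeSet ∧ c e = 2}

noncomputable instance (G : SimpleGraph V) (c : Sym2 V → Fin 3) : Fintype (E2 G c) := by
  classical
  unfold E2
  infer_instance

noncomputable instance (G : SimpleGraph V) (c : Sym2 V → Fin 3) : DecidableEq (E2 G c) :=
  Classical.decEq _

/-- the conflict graph -/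
def Conf (G : SimpleGraph V) (c : Sym2 V → Fin 3) : SimpleGraph (E2 G c) where
  Adj e f := e ≠ f ∧ ∃ u v, u ∈ e.1 ∧ v ∈ f.1 ∧ G.Adj u v
  symm := ⟨fun _ _ ⟨h1, u, v, hu, hv, h⟩ => ⟨h1.symm, v, u, hv, hu, h.symm⟩⟩
  loopless := ⟨fun _ h => h.1 rfl⟩

variable {G : SimpleGraph V} {c : Sym2 V → Fin 3}

omit [Fintype V] [DecidableEq V] in
lemma e2_eq (hc : ∀ e ∈ G.edgeSet, ∀ f ∈ G.edgeSet, e ≠ f → (∃ v : V, v ∈ e ∧ v ∈ f) → c e ≠ c f)
    {e f : E2 G c} {v : V} (he : v ∈ e.1) (hf : v ∈ f.1) : e = f := by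
  by_contra hne
  exact hc e.1 e.2.1 f.1 f.2.1 (fun h => hne (Subtype.ext h)) ⟨v, he, hf⟩ (e.2.2.trans f.2.2.symm)

omit [Fintype V] [DecidableEq V] in
lemma e2_adj {e : E2 G c} {a b : V} (ha : a ∈ e.1) (hb : b ∈ e.1) (hab : a ≠ b) : G.Adj a b := by
  have h : e.1 = s(a, b) := (Sym2.mem_and_mem_iff hab).1 ⟨ha, hb⟩
  have := e.2.1
  rwa [h] at this

lemma conf_deg
    (hc : ∀ e ∈ G.edgeSet, ∀ f ∈ G.edgeSet, e ≠ f → (∃ v : V, v ∈ e ∧ v ∈ f) → c e ≠ c f)
    (e : E2 G c) : (nb (Conf G c) e).card ≤ 4 := by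
  classical
  have hch : ∀ f ∈ nb (Conf G c) e, ∃ uv : V × V, uv.1 ∈ e.1 ∧ uv.2 ∈ f.1 ∧ G.Adj uv.1 uv.2 := by
    intro f hf
    obtain ⟨-, u, v, h⟩ := mem_nb.1 hf
    exact ⟨(u, v), h⟩
  have : Nonempty V := ⟨e.1.out.1⟩
  choose! φ hφ using hch
  let T : Finset (V × Fin 3) := e.1.toFinset ×ˢ ({0, 1} : Finset (Fin 3))
  have hT : T.card ≤ 4 := by
    rw [card_product]
    have h1 : e.1.toFinset.card ≤ 2 := by
      obtain ⟨e, he⟩ := e
      induction e using Sym2.ind with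
      | _ a b => simp only [Sym2.toFinset_mk_eq]; exact card_le_two
    have h2 : ({0, 1} : Finset (Fin 3)).card = 2 := rfl
    rw [h2]; omega
  refine le_trans (card_le_card_of_injOn (fun f => ((φ f).1, c s((φ f).1, (φ f).2))) ?_ ?_) hT
  · intro f hf
    have hf' : f ∈ nb (Conf G c) e := hf
    obtain ⟨h1, h2, h3⟩ := hφ f hf'
    simp only [T, coe_product, Set.mem_prod, mem_coe, Sym2.mem_toFinset, mem_insert, mem_singleton]
    refine ⟨h1, ?_⟩
    have : c s((φ f).1, (φ f).2) ≠ 2 := by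
      intro h
      let k : E2 G c := ⟨s((φ f).1, (φ f).2), h3, h⟩
      have a1 : k = e := e2_eq hc (v := (φ f).1) (by simp [k]) h1
      have a2 : k = f := e2_eq hc (v := (φ f).2) (by simp [k]) h2
      exact (mem_nb.1 hf').1 (a1.symm.trans a2)
    generalize c s((φ f).1, (φ f).2) = x at this
    revert x; decide
  · intro f hf f' hf' h
    have hf1 : f ∈ nb (Conf G c) e := hf
    have hf2 : f' ∈ nb (Conf G c) e := hf'
    obtain ⟨h1, h2, h3⟩ := hφ f hf1
    obtain ⟨h1', h2', h3'⟩ := hφ f' hf2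
    simp only [Prod.mk.injEq] at h
    have : s((φ f).1, (φ f).2) = s((φ f').1, (φ f').2) := by
      by_contra hne
      exact hc _ h3 _ h3' hne ⟨(φ f).1, by simp, by simp [h.1]⟩ h.2
    rw [h.1, Sym2.congr_right] at this
    exact e2_eq hc h2 (this ▸ h2')

omit [Fintype V] in
lemma conf_girth
    (hc : ∀ e ∈ G.edgeSet, ∀ f ∈ G.edgeSet, e ≠ f → (∃ v : V, v ∈ e ∧ v ∈ f) → c e ≠ c f)
    {g : ℕ} (hg : ((2 * g + 1 : ℕ) : ℕ∞) ≤ G.egirth) : (g : ℕ∞) ≤ (Conf G c).egirth := by
  classical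
  refine girth_of_ac fun S hS => ?_
  let S' : Finset V := S.biUnion fun e => e.1.toFinset
  have hS' : S'.card < 2 * g + 1 := by
    have : S'.card ≤ S.card * 2 := by
      refine card_biUnion_le_card_mul _ _ _ fun e _ => ?_
      obtain ⟨e, he⟩ := e
      induction e using Sym2.ind with
      | _ a b => simp only [Sym2.toFinset_mk_eq]; exact card_le_two
    omega
  have hAC := ac_of_girth hg S' hS'
  have hm : ∀ e ∈ (S : Set (E2 G c)), ∀ v ∈ e.1, v ∈ (S' : Set V) := fun e he v hv => by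
    simp only [S', coe_biUnion, Set.mem_iUnion, mem_coe, Sym2.mem_toFinset]
    exact ⟨e, he, hv⟩
  intro e he f f' hf hf' hfS hBr
  obtain ⟨hne, x, u, hx, hu, hxu⟩ := hf
  obtain ⟨hne', x', u', hx', hu', hxu'⟩ := hf'
  have inside : ∀ k : E2 G c, k ∈ (S : Set (E2 G c)) → k ≠ e → ∀ a ∈ k.1, ∀ b ∈ k.1,
      a ∈ Br G (S' : Set V) x u → b ∈ Br G (S' : Set V) x u := by
    intro k hk hke a ha b hb h
    by_cases hab : a = b
    · exact hab ▸ h
    · exact Br_step h (e2_adj ha hb hab) (hm k hk b hb) fun hbx => hke (e2_eq hc hb (hbx ▸ hx))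
  have key : ∀ k ∈ Br (Conf G c) (S : Set (E2 G c)) e f, ∀ b ∈ k.1, b ∈ Br G (S' : Set V) x u := by
    intro k hk
    induction hk with
    | refl => intro b hb; exact inside f hfS hne.symm u hu b hb (root_mem_Br _ _ _)
    | @tail k k' _ h ih =>
      intro b hb
      obtain ⟨⟨-, a, a', ha, ha', haa⟩, hk', hke⟩ := h
      exact inside k' hk' hke a' ha' b hb (Br_step (ih a ha) haa (hm k' hk' a' ha')
        fun hbx => hke (e2_eq hc ha' (hbx ▸ hx)))
  have h1 := key f' hBr u' hu'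
  by_cases hxx : x = x'
  · subst hxx
    have := hAC x (hm e he x hx) u u' hxu hxu' (hm f hfS u hu) h1
    exact e2_eq hc hu (this ▸ hu')
  · have h2 : x' ∈ Br G (S' : Set V) x u := Br_step h1 hxu'.symm (hm e he x' hx') (Ne.symm hxx)
    have := hAC x (hm e he x hx) u x' hxu (e2_adj hx hx' hxx) (hm f hfS u hu) h2
    exact absurd (e2_eq hc hx' (this ▸ hu)) hne

theorem main : ∃ g : ℕ, ∀ (V : Type) [Fintype V] (G : SimpleGraph V), (g : ℕ∞) ≤ G.egirth →
    (∃ c : Sym2 V → Fin 3,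
      ∀ e ∈ G.edgeSet, ∀ f ∈ G.edgeSet, e ≠ f → (∃ v : V, v ∈ e ∧ v ∈ f) → c e ≠ c f) →
    ∃ c : Sym2 V → Fin 5,
      ∀ e ∈ G.edgeSet, ∀ f ∈ G.edgeSet, e ≠ f → c e = c f →
        (¬ ∃ v : V, v ∈ e ∧ v ∈ f) ∧
        ((2 : Fin 5) ≤ c e → ¬ ∃ u v : V, u ∈ e ∧ v ∈ f ∧ G.Adj u v) := by
  classical
  obtain ⟨g, hg⟩ := deg_four
  refine ⟨2 * g + 1, fun V _ G hG ⟨c, hc⟩ => ?_⟩
  obtain ⟨χ⟩ := hg _ (Conf G c) (conf_deg hc) (conf_girth hc hG)
  refine ⟨fun e => if h : e ∈ G.edgeSet ∧ c e = 2 then ⟨(χ ⟨e, h⟩).val + 2, by omega⟩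
    else ⟨(c e).val, by omega⟩, fun e he f hf hef h => ?_⟩
  by_cases h1 : c e = 2 <;> by_cases h2 : c f = 2
  · simp only [dif_pos (And.intro he h1), dif_pos (And.intro hf h2), Fin.mk.injEq,
      Nat.add_right_cancel_iff] at h ⊢
    refine ⟨fun hv => hc e he f hf hef hv (h1.trans h2.symm), fun _ huv => ?_⟩
    exact χ.valid (v := ⟨e, he, h1⟩) (w := ⟨f, hf, h2⟩)
      ⟨fun hh => hef (congrArg Subtype.val hh), huv⟩ (Fin.ext h)
  · simp only [dif_pos (And.intro he h1), dif_neg (fun hh : f ∈ G.edgeSet ∧ c f = 2 => h2 hh.2),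
      Fin.mk.injEq] at h
    exact absurd (Fin.ext (by have := (c f).isLt; simp only [Fin.val_two]; omega)) h2
  · simp only [dif_pos (And.intro hf h2), dif_neg (fun hh : e ∈ G.edgeSet ∧ c e = 2 => h1 hh.2),
      Fin.mk.injEq] at h
    exact absurd (Fin.ext (by have := (c e).isLt; simp only [Fin.val_two]; omega)) h1
  · simp only [dif_neg (fun hh : f ∈ G.edgeSet ∧ c f = 2 => h2 hh.2),
      dif_neg (fun hh : e ∈ G.edgeSet ∧ c e = 2 => h1 hh.2), Fin.mk.injEq] at h ⊢
    refine ⟨fun hv => hc e he f hf hef hv (Fin.ext h), fun h3 => ?_⟩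
    exfalso
    rw [Fin.le_def] at h3
    exact h1 (Fin.ext (by have := (c e).isLt; simp only [Fin.val_two] at h3 ⊢; omega))

end Pool.Agent.MP_5159fa_co
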