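import Pool.Agent.MP_d802e4_co.Mg.Final

/-!
Graphs of maximum degree at most four and large girth are 3-colourable: embed them into
4-regular graphs of the same girth.
-/

set_option autoImplicit false

namespace Pool.Agent.MP_5159fa_co

open Finset Pool.Agent.MP_d802e4_co

/-- reduced words of bounded length -/
def RW (D : Type) (g : ℕ) : Type := {l : List D // l.IsChain (· ≠ ·) ∧ l.length ≤ g}

instance (D : Type) [Finite D] (g : ℕ) : Finite (RW D g) := by
  have h : {l : List D | l.IsChain (· ≠ ·) ∧ l.length ≤ g}.Finite :=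
    (List.finite_length_le D g).subset fun l hl => hl.2
  exact h.to_subtype

open Classical in
/-- multiplication by a letter inside the ball -/
noncomputable def stepW {D : Type} (g : ℕ) (d : D) (l : RW D g) : RW D g :=
  if h : l.1.head? = some d then ⟨l.1.tail, l.2.1.tail, by have := l.2.2; simp; omega⟩
  else if h' : l.1.length < g then
    ⟨d :: l.1, by
      refine List.IsChain.cons l.2.1 ?_
      intro y hy hdy
      exact h (by rw [hdy]; exact hy), by simp; omega⟩
  else l

lemma stepW_cons {D : Type} {g : ℕ} (d : D) (l : RW D g) (h : l.1.head? ≠ some d)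
    (h' : l.1.length < g) : (stepW g d l).1 = d :: l.1 := by
  rw [stepW, dif_neg h, dif_pos h']

lemma stepW_tail {D : Type} {g : ℕ} (d : D) (l : RW D g) (h : l.1.head? = some d) :
    (stepW g d l).1 = l.1.tail := by
  rw [stepW, dif_pos h]

lemma stepW_inv {D : Type} (g : ℕ) (d : D) : Function.Involutive (stepW g d) := by
  intro l
  apply Subtype.ext
  by_cases h : l.1.head? = some d
  · obtain ⟨l, hc, hl⟩ := l
    cases l with
    | nil => simp at h
    | cons a t =>
      simp only [List.head?_cons, Option.some.injEq] at h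
      subst h
      have e : (stepW g a ⟨a :: t, hc, hl⟩).1 = t := stepW_tail a _ rfl
      rw [stepW_cons a _ ?_ ?_, e]
      · rw [e]
        intro ht
        cases t with
        | nil => simp at ht
        | cons b t' =>
          simp only [List.head?_cons, Option.some.injEq] at ht
          exact (List.isChain_cons_cons.1 hc).1 ht.symm
      · rw [e]; simp at hl; omega
  · by_cases h' : l.1.length < g
    · have e := stepW_cons d l h h'
      rw [stepW_tail d _ (by rw [e]; rfl), e]; rfl
    · have e : stepW g d l = l := by rw [stepW, dif_neg h, dif_neg h']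
      rw [e, e]

/-- the involution of the ball given by a letter -/
noncomputable def sig {D : Type} (g : ℕ) (d : D) : Equiv.Perm (RW D g) := (stepW_inv g d).toPerm

lemma sig_sq {D : Type} (g : ℕ) (d : D) : sig g d * sig g d = 1 := by
  ext l
  exact stepW_inv g d l

lemma prod_nil {D : Type} (g : ℕ) (u : List D) (hc : u.IsChain (· ≠ ·)) (hl : u.length ≤ g) :
    ((u.map (sig g)).prod ⟨[], List.IsChain.nil, Nat.zero_le _⟩).1 = u := by
  induction u with
  | nil => rfl
  | cons d u ih =>
    have ih' := ih hc.tail (by simp at hl; omega)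
    rw [List.map_cons, List.prod_cons, Equiv.Perm.mul_apply]
    change (stepW g d _).1 = _
    rw [stepW_cons d _ ?_ ?_, ih']
    · rw [ih']
      intro ht
      cases u with
      | nil => simp at ht
      | cons b t' =>
        simp only [List.head?_cons, Option.some.injEq] at ht
        exact (List.isChain_cons_cons.1 hc).1 ht.symm
    · rw [ih']; simp at hl; omega

lemma eq_nil_of_prod {D : Type} (g : ℕ) (u : List D) (hc : u.IsChain (· ≠ ·)) (hl : u.length ≤ g)
    (h : (u.map (sig g)).prod = 1) : u = [] := by
  have := prod_nil g u hc hl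
  rw [h] at this
  exact this.symm

variable {V : Type} [Fintype V] [DecidableEq V]

/-- the regularisation of `H` -/
def Hat (H : SimpleGraph V) (g : ℕ) (hg : 2 ≤ g) :
    SimpleGraph (V × Equiv.Perm (RW (V × Fin 4) g)) where
  Adj a b := (H.Adj a.1 b.1 ∧ a.2 = b.2) ∨
    (a.1 = b.1 ∧ ∃ j : Fin 4, j.val < 4 - (nb H a.1).card ∧ b.2 = sig g (a.1, j) * a.2)
  symm := ⟨by
    rintro ⟨v, x⟩ ⟨w, y⟩ (⟨h1, h2⟩ | ⟨h1, j, hj, h2⟩)
    · exact Or.inl ⟨h1.symm, h2.symm⟩
    · simp only at h1 h2 hj
      subst h1
      refine Or.inr ⟨rfl, j, hj, ?_⟩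
      simp only
      rw [h2, ← mul_assoc, sig_sq, one_mul]⟩
  loopless := ⟨by
    rintro ⟨v, x⟩ (⟨h1, -⟩ | ⟨-, j, -, h2⟩)
    · exact h1.ne rfl
    · simp only at h2
      have h3 : sig g (v, j) = 1 := by
        have := congrArg (· * x⁻¹) h2
        simpa using this.symm
      have := eq_nil_of_prod g [(v, j)] (List.IsChain.singleton _) (by simp; omega) (by simpa using h3)
      simp at this⟩

omit [DecidableEq V] in
lemma hat_walk (H : SimpleGraph V) (g : ℕ) (hg : 2 ≤ g)
    {a b : V × Equiv.Perm (RW (V × Fin 4) g)} (p : (Hat H g hg).Walk a b) (hp : p.IsPath) :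
    ∃ u : List (V × Fin 4), u.IsChain (· ≠ ·) ∧ u.length ≤ p.length ∧
      a.2 = (u.map (sig g)).prod * b.2 ∧
      (∀ d, u.head? = some d → s((d.1, a.2), (d.1, sig g d * a.2)) ∈ p.edges) ∧
      (u = [] → ∃ P : H.Walk a.1 b.1, P.support.map (fun v => (v, b.2)) = p.support ∧
        P.edges.map (Sym2.map fun v => (v, b.2)) = p.edges) := by
  induction p with
  | nil => exact ⟨[], List.IsChain.nil, le_rfl, by simp, by simp, fun _ => ⟨.nil, by simp, by simp⟩⟩
  | @cons a a' b h p ih =>
    rw [SimpleGraph.Walk.cons_isPath_iff] at hp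
    obtain ⟨u, hc, hl, he, hh, hn⟩ := ih hp.1
    obtain ⟨v, x⟩ := a
    obtain ⟨v', x'⟩ := a'
    rcases h with ⟨h1, h2⟩ | ⟨h1, j, hj, h2⟩
    · simp only at h1 h2
      subst h2
      refine ⟨u, hc, by simp; omega, he, fun d hd => ?_, fun hu => ?_⟩
      · simp only [SimpleGraph.Walk.edges_cons, List.mem_cons]
        exact Or.inr (hh d hd)
      · obtain ⟨P, hP1, hP2⟩ := hn hu
        have hx : x = b.2 := by simpa [hu] using he
        refine ⟨.cons h1 P, ?_, ?_⟩
        · simp only [SimpleGraph.Walk.support_cons, List.map_cons, hP1, hx]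
        · simp only [SimpleGraph.Walk.edges_cons, List.map_cons, hP2, hx, Sym2.map_mk]
    · simp only at h1 h2
      subst h1
      have hx : x = sig g (v, j) * x' := by rw [h2, ← mul_assoc, sig_sq, one_mul]
      refine ⟨(v, j) :: u, ?_, by simp; omega, ?_, fun d hd => ?_, fun hu => by simp at hu⟩
      · refine List.IsChain.cons hc ?_
        intro y hy hdy
        have h3 := hh y hy
        rw [← hdy] at h3
        simp only at h3
        rw [← hx] at h3
        exact hp.2 (p.snd_mem_support_of_mem_edges h3)
      · simp only [List.map_cons, List.prod_cons] at he ⊢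
        rw [mul_assoc, ← he, hx]
      · simp only [List.head?_cons, Option.some.injEq] at hd
        subst hd
        simp only [SimpleGraph.Walk.edges_cons, List.mem_cons]
        exact Or.inl (by rw [h2])

lemma hat_girth (H : SimpleGraph V) (g : ℕ) (hg : 2 ≤ g) (hH : (g : ℕ∞) ≤ H.egirth) :
    (g : ℕ∞) ≤ (Hat H g hg).egirth := by
  rw [SimpleGraph.le_egirth]
  intro q c hc
  by_contra hlt
  have hlt' : c.length < g := by
    by_contra h
    exact hlt (by exact_mod_cast (not_lt.1 h))
  cases c with
  | nil => exact hc.ne_nil rfl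
  | @cons _ w _ h p =>
    rw [SimpleGraph.Walk.cons_isCycle_iff] at hc
    obtain ⟨u, hch, hl, he, hh, hn⟩ := hat_walk H g hg p hc.1
    simp only [SimpleGraph.Walk.length_cons] at hlt'
    obtain ⟨v, x⟩ := q
    obtain ⟨v', x'⟩ := w
    rcases h with ⟨h1, h2⟩ | ⟨h1, j, hj, h2⟩
    · simp only at h1 h2 he
      subst h2
      have hu : u = [] := eq_nil_of_prod g u hch (by omega) (by
        have := congrArg (· * x⁻¹) he
        simpa using this.symm)
      obtain ⟨P, hP1, hP2⟩ := hn hu
      simp only at P hP1 hP2
      have hPp : P.IsPath := by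
        rw [SimpleGraph.Walk.isPath_def]
        have := hc.1.support_nodup
        rw [← hP1] at this
        exact this.of_map _
      have hcyc : (SimpleGraph.Walk.cons h1 P).IsCycle := by
        rw [SimpleGraph.Walk.cons_isCycle_iff]
        refine ⟨hPp, fun hm => hc.2 ?_⟩
        rw [← hP2]
        exact List.mem_map.2 ⟨_, hm, by simp⟩
      have h3 := SimpleGraph.le_egirth.1 hH _ _ hcyc
      have h4 : P.length = p.length := by
        have := congrArg List.length hP2
        simpa using this
      simp only [SimpleGraph.Walk.length_cons] at h3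
      have h5 : g ≤ P.length + 1 := by exact_mod_cast h3
      omega
    · simp only at h1 h2 he hh
      subst h1
      have hx : x = sig g (v, j) * x' := by rw [h2, ← mul_assoc, sig_sq, one_mul]
      by_cases hd : u.head? = some (v, j)
      · have := hh _ hd
        simp only at this
        rw [← hx, Sym2.eq_swap] at this
        exact hc.2 this
      · have := eq_nil_of_prod g ((v, j) :: u) (List.IsChain.cons hch fun y hy hdy =>
          hd (by rw [hdy]; exact hy)) (by simp; omega) (by
            simp only [List.map_cons, List.prod_cons]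
            have h3 : x = sig g (v, j) * (u.map (sig g)).prod * x := by
              rw [mul_assoc, ← he, ← hx]
            have := congrArg (· * x⁻¹) h3
            simpa using this.symm)
        simp at this

lemma hat_deg (H : SimpleGraph V) (g : ℕ) (hg : 2 ≤ g) (h4 : ∀ v, (nb H v).card ≤ 4)
    [Fintype (V × Equiv.Perm (RW (V × Fin 4) g))]
    (a : V × Equiv.Perm (RW (V × Fin 4) g)) : (nb (Hat H g hg) a).card = 4 := by
  classical
  obtain ⟨v, x⟩ := a
  have e : nb (Hat H g hg) (v, x) = (nb H v).image (fun w => (w, x)) ∪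
      (univ.filter fun j : Fin 4 => j.val < 4 - (nb H v).card).image
        (fun j => (v, sig g (v, j) * x)) := by
    ext ⟨w, y⟩
    simp only [mem_nb, mem_union, mem_image, mem_filter, mem_univ, true_and, Prod.mk.injEq]
    constructor
    · rintro (⟨h1, h2⟩ | ⟨h1, j, hj, h2⟩)
      · exact Or.inl ⟨w, h1, rfl, h2⟩
      · exact Or.inr ⟨j, hj, h1, h2.symm⟩
    · rintro (⟨w', h1, rfl, h2⟩ | ⟨j, hj, h1, h2⟩)
      · exact Or.inl ⟨h1, h2⟩
      · exact Or.inr ⟨h1, j, hj, h2.symm⟩
  rw [e, card_union_of_disjoint, card_image_of_injective _ (fun w w' h => (Prod.mk.inj h).1),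
    card_image_of_injective]
  · have := h4 v
    generalize (nb H v).card = k at this ⊢
    interval_cases k <;> rfl
  · intro j j' h
    by_contra hne
    have h1 : sig g (v, j) = sig g (v, j') := mul_right_cancel (Prod.mk.inj h).2
    have := eq_nil_of_prod g [(v, j), (v, j')] (by simpa using hne) (by simpa using hg) (by
      simp only [List.map_cons, List.map_nil, List.prod_cons, List.prod_nil, mul_one]
      rw [h1, sig_sq])
    simp at this
  · rw [disjoint_left]
    intro a h1 h2
    obtain ⟨w, hw, rfl⟩ := mem_image.1 h1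
    obtain ⟨j, -, hj⟩ := mem_image.1 h2
    exact (mem_nb.1 hw).ne (Prod.mk.inj hj).1

theorem deg_four : ∃ g : ℕ, ∀ (V : Type) [Fintype V] [DecidableEq V] (H : SimpleGraph V),
    (∀ v, (nb H v).card ≤ 4) → (g : ℕ∞) ≤ H.egirth → H.Colorable 3 := by
  classical
  obtain ⟨g, hg⟩ := main_thm
  refine ⟨g + 2, fun V _ _ H h4 hH => ?_⟩
  have h2 : 2 ≤ g + 2 := by omega
  let _ : Fintype (RW (V × Fin 4) (g + 2)) := Fintype.ofFinite _
  have h := hg _ (Hat H (g + 2) h2) (hat_deg H _ h2 h4)
    (le_trans (by exact_mod_cast Nat.le_add_right g 2) (hat_girth H _ h2 hH))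
  exact h.of_hom ⟨fun v => (v, 1), fun hab => Or.inl ⟨hab, rfl⟩⟩

end Pool.Agent.MP_5159fa_co
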